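import Mathlib

/-!
# Idempotents in the two-sided ideal generated by an element of a group algebra, after embedding
the group in a wreath product
-/

namespace Pool.Agent.X201.GenericAlg

open MonoidAlgebra

/-- `Gen a b`: the element `b` lies in the two-sided ideal generated by `a`. -/
inductive Gen {R : Type*} [Ring R] (a : R) : R → Prop
  | base : Gen a a
  | add {b c : R} : Gen a b → Gen a c → Gen a (b + c)
  | mul_left (r : R) {b : R} : Gen a b → Gen a (r * b)
  | mul_right (r : R) {b : R} : Gen a b → Gen a (b * r)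

theorem Gen.mem {R : Type*} [Ring R] {a b : R} (h : Gen a b) (I : Ideal R) [I.IsTwoSided]
    (ha : a ∈ I) : b ∈ I := by
  induction h with
  | base => exact ha
  | add _ _ hb hc => exact I.add_mem hb hc
  | mul_left r _ hb => exact I.mul_mem_left r hb
  | mul_right r _ hb => exact I.mul_mem_right r hb

theorem Gen.map {R S : Type*} [Ring R] [Ring S] (f : R →+* S) {a b : R} (h : Gen a b) : Gen (f a) (f b) := by
  induction h with
  | base => exact Gen.base
  | add _ _ hb hc => rw [map_add]; exact hb.add hc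
  | mul_left r _ hb => rw [map_mul]; exact hb.mul_left _
  | mul_right r _ hb => rw [map_mul]; exact hb.mul_right _

/-- An idempotent in the Jacobson radical vanishes. -/
theorem eq_zero_of_mem_jacobson {R : Type*} [Ring R] {e : R} (he : e * e = e)
    (h : e ∈ Ring.jacobson R) : e = 0 := by
  rw [← Ideal.jacobson_bot, Ideal.mem_jacobson_iff] at h
  obtain ⟨z, hz⟩ := h (-1)
  rw [Ideal.mem_bot] at hz
  have h1 : z * (1 - e) = 1 := by
    have : z * (1 - e) - 1 = z * (-1) * e + z - 1 := by noncomm_ring
    rw [← sub_eq_zero, this, hz]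
  have h2 : z * (1 - e) * e = e := by rw [h1, one_mul]
  have h3 : z * (1 - e) * e = 0 := by
    rw [mul_assoc, sub_mul, one_mul, he, sub_self, mul_zero]
  rw [← h2, h3]

variable (G : Type) [Group G]

/-- The base group of the wreath product `C₂ ≀ G`. -/
abbrev B : Type := Multiplicative (G →₀ ZMod 2)

/-- The action of `G` on the base group. -/
noncomputable def act : G →* MulAut (B G) where
  toFun g := AddEquiv.toMultiplicative (Finsupp.domCongr (Equiv.mulLeft g))
  map_one' := by
    refine MulEquiv.ext fun f => Multiplicative.toAdd.injective (Finsupp.ext fun x => ?_)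
    change (Multiplicative.toAdd f) ((1 : G)⁻¹ * x) = (Multiplicative.toAdd f) x
    rw [inv_one, one_mul]
  map_mul' g h := by
    refine MulEquiv.ext fun f => Multiplicative.toAdd.injective (Finsupp.ext fun x => ?_)
    change (Multiplicative.toAdd f) ((g * h)⁻¹ * x) = (Multiplicative.toAdd f) (h⁻¹ * (g⁻¹ * x))
    rw [mul_inv_rev, mul_assoc]

/-- The wreath product `C₂ ≀ G`. -/
abbrev H : Type := B G ⋊[act G] G

variable {G}

/-- The lamp at position `g`. -/
noncomputable def lamp (g : G) : B G := Multiplicative.ofAdd (Finsupp.single g 1)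

theorem act_lamp (h g : G) : act G h (lamp g) = lamp (h * g) := by
  apply Multiplicative.toAdd.injective
  ext x
  simp [act, lamp, Finsupp.domCongr]

omit [Group G] in
theorem B_mul_self (b : B G) : b * b = 1 := by
  apply Multiplicative.toAdd.injective
  ext x
  simp only [toAdd_mul, toAdd_one, Finsupp.add_apply, Finsupp.zero_apply]
  exact CharTwo.add_self_eq_zero _

/-- Commutation rule in the wreath product. -/
theorem lamp_mul_inr (g : G) :
    (SemidirectProduct.inl (lamp 1) * SemidirectProduct.inr g : H G) =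
      SemidirectProduct.inr g * SemidirectProduct.inl (lamp g⁻¹) := by
  have h1 := SemidirectProduct.inl_aut (φ := act G) g (lamp g⁻¹)
  rw [act_lamp, mul_inv_cancel] at h1
  rw [h1, mul_assoc, mul_assoc, ← map_mul, inv_mul_cancel, map_one, mul_one]

/-- The embedding of `ℚ[B]` into `ℚ[H]`. -/
noncomputable def Phi : MonoidAlgebra ℚ (B G) →+* MonoidAlgebra ℚ (H G) :=
  MonoidAlgebra.mapDomainRingHom ℚ SemidirectProduct.inl

theorem Phi_single (b : B G) (r : ℚ) :
    Phi (MonoidAlgebra.single b r) = MonoidAlgebra.single (SemidirectProduct.inl b : H G) r := by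
  rw [Phi, MonoidAlgebra.mapDomainRingHom_apply, MonoidAlgebra.mapDomain_single]

theorem Phi_injective : Function.Injective (Phi : MonoidAlgebra ℚ (B G) → _) :=
  MonoidAlgebra.mapDomain_injective SemidirectProduct.inl_injective

/-- The element of `ℚ[B]` given by the lamp at position `g⁻¹`. -/
noncomputable def Y (g : G) : MonoidAlgebra ℚ (B G) := MonoidAlgebra.single (lamp g⁻¹) 1

theorem Y_mul_self (g : G) : Y g * Y g = 1 := by
  rw [Y, MonoidAlgebra.single_mul_single, B_mul_self, one_mul]
  rfl

/-- The image of an element of `ℚ[G]` in `ℚ[H]`. -/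
noncomputable def iota (f : G →₀ ℚ) : MonoidAlgebra ℚ (H G) :=
  ∑ g ∈ f.support, MonoidAlgebra.single (SemidirectProduct.inr g : H G) (f g)

/-- The elements `u_s` of the ideal generated by `iota f`. -/
noncomputable def u (f : G →₀ ℚ) (s : Finset G) : MonoidAlgebra ℚ (H G) :=
  ∑ g ∈ f.support, MonoidAlgebra.single (SemidirectProduct.inr g : H G) (f g) *
    Phi (∏ i ∈ s, (1 - Y g * Y i))

theorem gen_u (f : G →₀ ℚ) (s : Finset G) : Gen (iota f) (u f s) := by
  classical
  induction s using Finset.induction_on with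
  | empty =>
    have : u f ∅ = iota f := by
      simp [u, iota]
    rw [this]
    exact Gen.base
  | insert j s hj ih =>
    have key : u f (insert j s) = u f s +
        (MonoidAlgebra.single (SemidirectProduct.inl (lamp 1) : H G) (-1) * u f s) *
          Phi (Y j) := by
      rw [u, u, Finset.mul_sum, Finset.sum_mul, ← Finset.sum_add_distrib]
      apply Finset.sum_congr rfl
      intro g _
      have h1 : (MonoidAlgebra.single (SemidirectProduct.inl (lamp 1) : H G) (-1 : ℚ)) *
          MonoidAlgebra.single (SemidirectProduct.inr g : H G) (f g) =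
          - (MonoidAlgebra.single (SemidirectProduct.inr g : H G) (f g) * Phi (Y g)) := by
        rw [Y, Phi_single, MonoidAlgebra.single_mul_single, MonoidAlgebra.single_mul_single,
          lamp_mul_inr, mul_one, ← MonoidAlgebra.single_neg]
        congr 1
        ring
      rw [← mul_assoc, h1, Finset.prod_insert hj]
      set Z := ∏ i ∈ s, (1 - Y g * Y i)
      have h2 : Phi ((1 - Y g * Y j) * Z) = Phi Z - Phi (Y g) * (Phi Z * Phi (Y j)) := by
        rw [← map_mul, ← map_mul, ← map_sub]
        congr 1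
        ring
      rw [h2, mul_sub, neg_mul, neg_mul, mul_assoc, mul_assoc, sub_eq_add_neg]
    rw [key]
    exact ih.add ((ih.mul_left _).mul_right _)

/-- The idempotent. -/
theorem exists_idempotent (f : G →₀ ℚ) (hf : f ≠ 0) :
    ∃ e : MonoidAlgebra ℚ (H G), e ≠ 0 ∧ e * e = e ∧ Gen (iota f) e := by
  classical
  obtain ⟨g₁, hg₁⟩ : ∃ g, f g ≠ 0 := by
    by_contra h
    push Not at h
    exact hf (Finsupp.ext h)
  let s := f.support.erase g₁
  let D : MonoidAlgebra ℚ (B G) := ∏ i ∈ s, (1 - Y g₁ * Y i)
  have hu : u f s = MonoidAlgebra.single (SemidirectProduct.inr g₁ : H G) (f g₁) * Phi D := by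
    rw [u, Finset.sum_eq_single g₁]
    · intro g hg hne
      have h1 : (∏ i ∈ s, (1 - Y g * Y i)) = 0 :=
        Finset.prod_eq_zero (Finset.mem_erase.2 ⟨hne, hg⟩) (by rw [Y_mul_self, sub_self])
      rw [h1, map_zero, mul_zero]
    · intro h
      exact absurd (Finsupp.mem_support_iff.2 hg₁) h
  have hDD : D * D = ((2 : ℚ) ^ s.card) • D := by
    have h1 : ∀ i, (1 - Y g₁ * Y i) * (1 - Y g₁ * Y i) = (2 : ℚ) • (1 - Y g₁ * Y i) := by
      intro i
      have h2 := Y_mul_self g₁
      have h3 := Y_mul_self i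
      rw [two_smul]
      linear_combination (Y i * Y i) * h2 + h3
    calc D * D = ∏ i ∈ s, (1 - Y g₁ * Y i) * (1 - Y g₁ * Y i) := Finset.prod_mul_distrib.symm
      _ = ∏ i ∈ s, ((2 : ℚ) • (1 - Y g₁ * Y i)) := Finset.prod_congr rfl fun i _ => h1 i
      _ = ((2 : ℚ) ^ s.card) • D := by
        simp only [Algebra.smul_def]
        rw [Finset.prod_mul_distrib, Finset.prod_const, map_pow]
  have hD0 : D ≠ 0 := by
    intro h
    let ev : B G →* Multiplicative (ZMod 2) :=
      AddMonoidHom.toMultiplicative (Finsupp.applyAddHom g₁⁻¹)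
    let ch : Multiplicative (ZMod 2) →* ℚ :=
      AddChar.toMonoidHom (AddChar.zmodChar 2 (ζ := (-1 : ℚ)) (by norm_num))
    let χ : MonoidAlgebra ℚ (B G) →ₐ[ℚ] ℚ := MonoidAlgebra.lift ℚ ℚ (B G) (ch.comp ev)
    have h1 : χ D = 2 ^ s.card := by
      have hY : ∀ g, χ (Y g) = (-1 : ℚ) ^ ((Finsupp.single g⁻¹ (1 : ZMod 2)) g₁⁻¹).val := by
        intro g
        simp only [χ, Y, MonoidAlgebra.lift_single, one_smul]
        rfl
      have h2 : χ (Y g₁) = -1 := by
        rw [hY, Finsupp.single_eq_same]
        have : (1 : ZMod 2).val = 1 := rfl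
        rw [this, pow_one]
      have h3 : ∀ i ∈ s, χ (Y i) = 1 := by
        intro i hi
        have hne : i⁻¹ ≠ g₁⁻¹ := fun h => (Finset.mem_erase.1 hi).1 (inv_injective h)
        rw [hY, Finsupp.single_apply, if_neg hne]
        simp
      have h4 : χ D = ∏ i ∈ s, (1 - χ (Y g₁) * χ (Y i)) := by
        simp only [D, map_prod, map_sub, map_one, map_mul]
      rw [h4, Finset.prod_congr rfl fun i hi => by rw [h2, h3 i hi]]
      rw [Finset.prod_const]
      norm_num
    rw [h, map_zero] at h1
    exact absurd h1.symm (by positivity)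
  refine ⟨Phi (((2 : ℚ) ^ s.card)⁻¹ • D), ?_, ?_, ?_⟩
  · intro h
    rw [← map_zero Phi] at h
    have h1 := Phi_injective h
    have h2 : ((2 : ℚ) ^ s.card)⁻¹ ≠ 0 := by positivity
    exact hD0 ((smul_eq_zero.1 h1).resolve_left h2)
  · rw [← map_mul]
    congr 1
    rw [smul_mul_smul_comm, hDD, smul_smul]
    congr 1
    have h2 : ((2 : ℚ) ^ s.card) ≠ 0 := by positivity
    field_simp
  · have h1 : Phi (((2 : ℚ) ^ s.card)⁻¹ • D) =
        MonoidAlgebra.single (SemidirectProduct.inr g₁⁻¹ : H G)
          (((2 : ℚ) ^ s.card)⁻¹ * (f g₁)⁻¹) * u f s := by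
      rw [hu, ← mul_assoc, MonoidAlgebra.single_mul_single, ← map_mul, inv_mul_cancel, map_one,
        mul_assoc, inv_mul_cancel₀ hg₁, mul_one]
      have h2 : ((2 : ℚ) ^ s.card)⁻¹ • D =
          (MonoidAlgebra.single (1 : B G) ((2 : ℚ) ^ s.card)⁻¹) * D := by
        rw [Algebra.smul_def]
        rfl
      rw [h2, map_mul, Phi_single, map_one]
    rw [h1]
    exact (gen_u f s).mul_left _

end Pool.Agent.X201.GenericAlg
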