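import Mathlib

/-!
# Congruence box spaces of `ℤ ≀ ℤ`: definitions and basic facts
-/

namespace Pool.Agent.X201.ZwrZ

open LaurentPolynomial Matrix

/-! ## Word length and diameter of a group -/

section Word

variable {Q : Type*} [Group Q]

/-- The word length of `q` with respect to `S`: the least length of a word in the elements of `S`
and their inverses with value `q`. -/
noncomputable def wordLength (S : Set Q) (q : Q) : ℕ :=
  sInf {n | ∃ l : List Q, l.length = n ∧ (∀ s ∈ l, s ∈ S ∨ s⁻¹ ∈ S) ∧ l.prod = q}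

/-- The diameter of the Cayley graph of the (finite) group `Q` with respect to the generating set
`S`: the largest word length of an element. -/
noncomputable def diam (S : Set Q) : ℕ := ⨆ q : Q, wordLength S q

/-- `q` is a word of length at most `n` in `S` and its inverses. -/
def InBall (S : Set Q) (n : ℕ) (q : Q) : Prop :=
  ∃ l : List Q, l.length ≤ n ∧ (∀ s ∈ l, s ∈ S ∨ s⁻¹ ∈ S) ∧ l.prod = q

theorem InBall.wordLength_le {S : Set Q} {n : ℕ} {q : Q} (h : InBall S n q) :
    wordLength S q ≤ n := by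
  obtain ⟨l, hl, hS, hp⟩ := h
  have h1 : l.length ∈ {n | ∃ l : List Q, l.length = n ∧ (∀ s ∈ l, s ∈ S ∨ s⁻¹ ∈ S) ∧
      l.prod = q} := ⟨l, rfl, hS, hp⟩
  exact (Nat.sInf_le h1).trans hl

theorem InBall.mono {S : Set Q} {m n : ℕ} {q : Q} (h : InBall S m q) (hmn : m ≤ n) :
    InBall S n q := by
  obtain ⟨l, hl, hS, hp⟩ := h
  exact ⟨l, hl.trans hmn, hS, hp⟩

theorem InBall.one (S : Set Q) (n : ℕ) : InBall S n 1 := ⟨[], by simp, by simp, by simp⟩

theorem InBall.mul {S : Set Q} {m n : ℕ} {p q : Q} (hp : InBall S m p) (hq : InBall S n q) :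
    InBall S (m + n) (p * q) := by
  obtain ⟨l, hl, hS, rfl⟩ := hp
  obtain ⟨l', hl', hS', rfl⟩ := hq
  refine ⟨l ++ l', by simpa using Nat.add_le_add hl hl', ?_, by simp⟩
  intro s hs
  rcases List.mem_append.1 hs with h | h
  exacts [hS s h, hS' s h]

theorem InBall.pow {S : Set Q} {n : ℕ} {q : Q} (hq : InBall S n q) (k : ℕ) :
    InBall S (k * n) (q ^ k) := by
  induction k with
  | zero => simpa using InBall.one S 0
  | succ k ih => rw [pow_succ, Nat.succ_mul]; exact ih.mul hq

theorem InBall.inv {S : Set Q} {n : ℕ} {q : Q} (hq : InBall S n q) : InBall S n q⁻¹ := by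
  obtain ⟨l, hl, hS, rfl⟩ := hq
  refine ⟨(l.map fun x => x⁻¹).reverse, by simpa using hl, ?_, ?_⟩
  · intro s hs
    simp only [List.mem_reverse, List.mem_map] at hs
    obtain ⟨t, ht, rfl⟩ := hs
    rcases hS t ht with h | h
    · right; simpa using h
    · left; exact h
  · rw [List.prod_inv_reverse]

theorem exists_inBall {S : Set Q} (hS : Subgroup.closure S = ⊤) (q : Q) :
    ∃ n, InBall S n q := by
  have hq : q ∈ Subgroup.closure S := by rw [hS]; trivial
  induction hq using Subgroup.closure_induction with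
  | mem x hx => exact ⟨1, [x], by simp, by simpa using Or.inl hx, by simp⟩
  | one => exact ⟨0, InBall.one S 0⟩
  | mul x y _ _ hx hy =>
    obtain ⟨m, hm⟩ := hx
    obtain ⟨n, hn⟩ := hy
    exact ⟨m + n, hm.mul hn⟩
  | inv x _ hx =>
    obtain ⟨m, hm⟩ := hx
    exact ⟨m, hm.inv⟩

theorem InBall.map {R : Type*} [Group R] (f : Q →* R) {S : Set Q} {n : ℕ} {q : Q}
    (hq : InBall S n q) : InBall (f '' S) n (f q) := by
  obtain ⟨l, hl, hS, rfl⟩ := hq
  refine ⟨l.map f, by simpa using hl, ?_, by rw [map_list_prod]⟩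
  intro s hs
  obtain ⟨t, ht, rfl⟩ := List.mem_map.1 hs
  rcases hS t ht with h | h
  · exact Or.inl ⟨t, h, rfl⟩
  · exact Or.inr ⟨t⁻¹, h, by simp⟩

/-- A word of minimal length exists. -/
theorem wordLength_spec {S : Set Q} (hS : Subgroup.closure S = ⊤) (q : Q) :
    ∃ l : List Q, l.length = wordLength S q ∧ (∀ s ∈ l, s ∈ S ∨ s⁻¹ ∈ S) ∧ l.prod = q := by
  obtain ⟨n, l, hl, h1, h2⟩ := exists_inBall hS q
  exact Nat.sInf_mem
    (s := {n | ∃ l : List Q, l.length = n ∧ (∀ s ∈ l, s ∈ S ∨ s⁻¹ ∈ S) ∧ l.prod = q})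
    ⟨l.length, l, rfl, h1, h2⟩

theorem diam_le {S : Set Q} {n : ℕ} (h : ∀ q, InBall S n q) : diam S ≤ n :=
  ciSup_le fun q => (h q).wordLength_le

theorem wordLength_le_diam [Finite Q] (S : Set Q) (q : Q) : wordLength S q ≤ diam S :=
  le_ciSup (Set.finite_range _).bddAbove q

end Word

/-! ## The group `G = ℤ ≀ ℤ` -/

/-- The ring `A = ℤ[X, X⁻¹]` of integer Laurent polynomials (with `X ^ n` written `T n`). -/
abbrev A : Type := LaurentPolynomial ℤ

/-- The group `G = ℤ ≀ ℤ`: all matrices `(X ^ n, P; 0, 1)` in `GL₂(A)`. -/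
noncomputable def G : Subgroup (GL (Fin 2) A) where
  carrier := {g | ∃ (n : ℤ) (P : A), (g : Matrix (Fin 2) (Fin 2) A) = !![T n, P; 0, 1]}
  one_mem' := by
    refine ⟨0, 0, ?_⟩
    ext i j
    fin_cases i <;> fin_cases j <;> simp
  mul_mem' := by
    rintro g h ⟨n, P, hg⟩ ⟨m, R, hh⟩
    refine ⟨n + m, P + T n * R, ?_⟩
    rw [Units.val_mul, hg, hh]
    ext i j
    fin_cases i <;> fin_cases j <;> simp [-T_mul, T_add, add_comm]
  inv_mem' := by
    rintro g ⟨n, P, hg⟩
    refine ⟨-n, -(T (-n) * P), ?_⟩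
    have h1 : (g : Matrix (Fin 2) (Fin 2) A) * !![T (-n), -(T (-n) * P); 0, 1] = 1 := by
      rw [hg]
      have hT : (T n : A) * T (-n) = 1 := by rw [← T_add]; simp
      ext i j
      fin_cases i <;> fin_cases j <;> simp [hT, ← mul_assoc]
    calc ((g⁻¹ : GL (Fin 2) A) : Matrix (Fin 2) (Fin 2) A)
        = ((g⁻¹ : GL (Fin 2) A) : Matrix (Fin 2) (Fin 2) A) *
            ((g : Matrix (Fin 2) (Fin 2) A) * !![T (-n), -(T (-n) * P); 0, 1]) := by
          rw [h1, mul_one]
      _ = !![T (-n), -(T (-n) * P); 0, 1] := by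
          rw [← mul_assoc, ← Units.val_mul, inv_mul_cancel, Units.val_one, one_mul]

/-- The congruence subgroup `G(I) = G ∩ ker (GL₂(A) → GL₂(A/I))` of an ideal `I` of `A`. -/
noncomputable def congruenceSubgroup (I : Ideal A) : Subgroup G :=
  (MonoidHom.ker (Matrix.GeneralLinearGroup.map (n := Fin 2) (Ideal.Quotient.mk I))).subgroupOf G

instance (I : Ideal A) : (congruenceSubgroup I).Normal := by
  unfold congruenceSubgroup; infer_instance

/-- `(N k)` is a filtration of the group `Γ`: a decreasing sequence of normal subgroups of finite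
index with trivial intersection. -/
structure IsFiltration {Γ : Type*} [Group Γ] (N : ℕ → Subgroup Γ) : Prop where
  antitone : Antitone N
  normal : ∀ k, (N k).Normal
  finiteIndex : ∀ k, (N k).FiniteIndex
  iInf_eq_bot : ⨅ k, N k = ⊥

/-- The sequence of ideals `I_0 ⊇ I_1 ⊇ ⋯` of finite index in `A` defines a congruence box space
of `G`: the congruence subgroups `G(I_k)` form a filtration of `G`. -/
structure IsCongruenceFiltration (I : ℕ → Ideal A) : Prop where
  antitone : Antitone I
  finite : ∀ k, Finite (A ⧸ I k)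
  filtration : IsFiltration fun k => congruenceSubgroup (I k)

/-- Property `D_α` of the congruence box space of `G` defined by the ideals `I k`, where `G` has
the finite generating set `S`: there is `K > 0` with
`diam (G / G(I_k)) ≥ K * |G / G(I_k)| ^ α` for all `k`, the diameter being that of the Cayley
graph with respect to the image of `S`. -/
def HasPropertyD (S : Set G) (I : ℕ → Ideal A) (α : ℝ) : Prop :=
  ∃ K : ℝ, 0 < K ∧ ∀ k,
    K * (Nat.card (G ⧸ congruenceSubgroup (I k)) : ℝ) ^ α ≤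
      (diam ((QuotientGroup.mk : G → G ⧸ congruenceSubgroup (I k)) '' S) : ℝ)

/-! ## Elements of `G` -/

/-- The element `(X ^ n, P; 0, 1)` of `G`. -/
noncomputable def mkG (n : ℤ) (P : A) : G :=
  ⟨⟨!![T n, P; 0, 1], !![T (-n), -(T (-n) * P); 0, 1], by
      have hT : (T n : A) * T (-n) = 1 := by rw [← T_add]; simp
      ext i j
      fin_cases i <;> fin_cases j <;> simp [hT, ← mul_assoc], by
      have hT : (T (-n) : A) * T n = 1 := by rw [← T_add]; simp
      ext i j
      fin_cases i <;> fin_cases j <;> simp [hT]⟩, n, P, rfl⟩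

@[simp] theorem mkG_coe (n : ℤ) (P : A) :
    (((mkG n P : G) : GL (Fin 2) A) : Matrix (Fin 2) (Fin 2) A) = !![T n, P; 0, 1] := rfl

theorem G_ext {g h : G} (H : ((g : GL (Fin 2) A) : Matrix (Fin 2) (Fin 2) A) =
    ((h : GL (Fin 2) A) : Matrix (Fin 2) (Fin 2) A)) : g = h :=
  Subtype.ext (Units.ext H)

theorem exists_mkG (g : G) : ∃ n P, g = mkG n P := by
  obtain ⟨g, n, P, h⟩ := g
  exact ⟨n, P, G_ext h⟩

theorem mkG_mul (n m : ℤ) (P R : A) : mkG n P * mkG m R = mkG (n + m) (P + T n * R) := by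
  apply G_ext
  simp only [Subgroup.coe_mul, Units.val_mul, mkG_coe]
  ext i j
  fin_cases i <;> fin_cases j <;> simp [-T_mul, T_add, add_comm]

theorem mkG_zero : mkG 0 0 = 1 := by
  apply G_ext
  simp only [mkG_coe, Subgroup.coe_one, Units.val_one]
  ext i j
  fin_cases i <;> fin_cases j <;> simp

theorem T_injective : Function.Injective (T : ℤ → A) := by
  intro m n h
  have := congrArg (fun f : A => f.coeff m) h
  simp only [T, AddMonoidAlgebra.coeff_single] at this
  rw [Finsupp.single_eq_same, Finsupp.single_apply] at this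
  by_contra hne
  rw [if_neg (Ne.symm hne)] at this
  exact one_ne_zero this

theorem mkG_inj {n m : ℤ} {P R : A} (h : mkG n P = mkG m R) : n = m ∧ P = R := by
  have h' := congrArg (fun g : G => ((g : GL (Fin 2) A) : Matrix (Fin 2) (Fin 2) A)) h
  simp only [mkG_coe] at h'
  constructor
  · have := congrFun (congrFun h' 0) 0
    simp at this
    exact T_injective this
  · have := congrFun (congrFun h' 0) 1
    simpa using this

theorem mem_congruenceSubgroup {I : Ideal A} {n : ℤ} {P : A} :
    mkG n P ∈ congruenceSubgroup I ↔ (T n - 1 : A) ∈ I ∧ P ∈ I := by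
  rw [congruenceSubgroup, Subgroup.mem_subgroupOf, MonoidHom.mem_ker]
  rw [← Ideal.Quotient.eq_zero_iff_mem, ← Ideal.Quotient.eq_zero_iff_mem, map_sub, map_one,
    sub_eq_zero]
  constructor
  · intro h
    have h' := congrArg (fun g : GL (Fin 2) (A ⧸ I) => (g : Matrix (Fin 2) (Fin 2) (A ⧸ I))) h
    constructor
    · have := congrFun (congrFun h' 0) 0
      simpa using this
    · have := congrFun (congrFun h' 0) 1
      simpa using this
  · rintro ⟨h1, h2⟩
    ext i j
    fin_cases i <;> fin_cases j <;> simp [h1, h2]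

end Pool.Agent.X201.ZwrZ
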