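import Pool.Agent.X201.ZwrZ

/-!
# Congruence box spaces of `ℤ ≀ ℤ`: the basic filtration and the size of quotients
-/

namespace Pool.Agent.X201.ZwrZ

open LaurentPolynomial Matrix

theorem isCongruenceFiltration_of {I : ℕ → Ideal A} (hI : Antitone I)
    (hfin : ∀ k, Finite (A ⧸ I k)) (hbot : ∀ f : A, (∀ k, f ∈ I k) → f = 0) :
    IsCongruenceFiltration I where
  antitone := hI
  finite := hfin
  filtration :=
    { antitone := by
        intro j k hjk g hg
        obtain ⟨n, P, rfl⟩ := exists_mkG g
        rw [mem_congruenceSubgroup] at hg ⊢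
        exact ⟨hI hjk hg.1, hI hjk hg.2⟩
      normal := fun k => inferInstance
      finiteIndex := by
        intro k
        have := hfin k
        have : Finite (GL (Fin 2) (A ⧸ I k)) := by
          have : Finite (Matrix (Fin 2) (Fin 2) (A ⧸ I k)) := by
            unfold Matrix; infer_instance
          exact inferInstanceAs (Finite (Matrix (Fin 2) (Fin 2) (A ⧸ I k))ˣ)
        unfold congruenceSubgroup
        infer_instance
      iInf_eq_bot := by
        rw [eq_bot_iff]
        intro g hg
        rw [Subgroup.mem_iInf] at hg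
        obtain ⟨n, P, rfl⟩ := exists_mkG g
        have h1 : (T n - 1 : A) = 0 := hbot _ fun k => (mem_congruenceSubgroup.1 (hg k)).1
        have h2 : P = 0 := hbot _ fun k => (mem_congruenceSubgroup.1 (hg k)).2
        have h3 : n = 0 := by
          apply T_injective
          rw [T_zero]
          exact sub_eq_zero.1 h1
        rw [h3, h2, mkG_zero]
        exact Subgroup.mem_bot.2 rfl }

/-- The reduction map `ℤ[X, X⁻¹] → (ℤ/m)[X]/(X^m - 1)`, the target being the group ring of
`ℤ/m` over `ℤ/m`. -/
noncomputable def red (m : ℕ) : A →+* AddMonoidAlgebra (ZMod m) (ZMod m) :=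
  (AddMonoidAlgebra.mapRingHom (ZMod m) (Int.castRingHom (ZMod m))).comp
    (AddMonoidAlgebra.mapDomainRingHom ℤ (Int.castAddHom (ZMod m)))

theorem red_single (m : ℕ) (n : ℤ) (c : ℤ) :
    red m (AddMonoidAlgebra.single n c) =
      AddMonoidAlgebra.single (n : ZMod m) (c : ZMod m) := by
  rw [red, RingHom.comp_apply, AddMonoidAlgebra.mapDomainRingHom_apply,
    AddMonoidAlgebra.mapDomain_single, AddMonoidAlgebra.mapRingHom_single]
  rfl

theorem red_T (m : ℕ) (n : ℤ) :
    red m (T n) = AddMonoidAlgebra.single (n : ZMod m) (1 : ZMod m) := by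
  have := red_single m n 1
  rw [Int.cast_one] at this
  exact this

theorem red_coeff_of_inj (m : ℕ) (f : A) (n : ℤ)
    (h : Set.InjOn (fun k : ℤ => (k : ZMod m)) (insert n (f.coeff.support : Set ℤ))) :
    (red m f).coeff (n : ZMod m) = ((f.coeff n : ℤ) : ZMod m) := by
  rw [red, RingHom.comp_apply, AddMonoidAlgebra.mapDomainRingHom_apply,
    AddMonoidAlgebra.coeff_mapRingHom, AddMonoidAlgebra.coeff_mapDomain]
  have h1 := Finsupp.mapDomain_apply' (insert n (f.coeff.support : Set ℤ)) f.coeff
    (Set.subset_insert _ _) h (Set.mem_insert n _)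
  change ((Finsupp.mapDomain (fun k : ℤ => (k : ZMod m)) f.coeff (n : ZMod m) : ℤ) : ZMod m) = _
  rw [h1]

theorem red_ne_zero (f : A) (hf : f ≠ 0) :
    ∃ M : ℕ, ∀ m ≥ M, red m f ≠ 0 := by
  obtain ⟨n, hn⟩ : ∃ n, f.coeff n ≠ 0 := by
    by_contra h
    push Not at h
    exact hf (LaurentPolynomial.ext h)
  refine ⟨2 * (f.coeff.support.sup Int.natAbs) + (f.coeff n).natAbs + 1, fun m hm h0 => ?_⟩
  have hn' : n ∈ (f.coeff.support : Set ℤ) := by simpa using hn
  have hinj : Set.InjOn (fun k : ℤ => (k : ZMod m)) (insert n (f.coeff.support : Set ℤ)) := by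
    rw [Set.insert_eq_of_mem hn']
    intro a ha b hb hab
    have ha' := Finset.le_sup (f := Int.natAbs) (Finset.mem_coe.1 ha)
    have hb' := Finset.le_sup (f := Int.natAbs) (Finset.mem_coe.1 hb)
    have hab' : ((a : ℤ) : ZMod m) = ((b : ℤ) : ZMod m) := hab
    rw [ZMod.intCast_eq_intCast_iff_dvd_sub] at hab'
    have : b - a = 0 := by
      apply Int.eq_zero_of_abs_lt_dvd hab'
      have h1 : |b - a| ≤ |b| + |a| := abs_sub b a
      have h3 := abs_nonneg (f.coeff n)
      zify at ha' hb' hm
      linarith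
    omega
  have h1 := red_coeff_of_inj m f n hinj
  rw [h0] at h1
  have h2 : ((f.coeff n : ℤ) : ZMod m) = 0 := by
    rw [← h1]; rfl
  rw [ZMod.intCast_zmod_eq_zero_iff_dvd] at h2
  apply hn
  apply Int.eq_zero_of_abs_lt_dvd h2
  have h3 : (0 : ℤ) ≤ ((f.coeff.support.sup Int.natAbs : ℕ) : ℤ) := Int.natCast_nonneg _
  zify at hm
  linarith

theorem red_factor {j k : ℕ} (hjk : j ∣ k) (f : A) (h : red k f = 0) : red j f = 0 := by
  let c : ZMod k →+* ZMod j := ZMod.castHom hjk (ZMod j)
  let F : AddMonoidAlgebra (ZMod k) (ZMod k) →+* AddMonoidAlgebra (ZMod j) (ZMod j) :=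
    (AddMonoidAlgebra.mapRingHom (ZMod j) c).comp
      (AddMonoidAlgebra.mapDomainRingHom (ZMod k) (c : ZMod k →+ ZMod j))
  have hF : F.comp (red k) = red j := by
    apply AddMonoidAlgebra.ringHom_ext
    · intro r
      rw [RingHom.comp_apply, red_single, red_single, RingHom.comp_apply,
        AddMonoidAlgebra.mapDomainRingHom_apply, AddMonoidAlgebra.mapDomain_single,
        AddMonoidAlgebra.mapRingHom_single]
      simp
    · intro n
      rw [RingHom.comp_apply, red_single, red_single, RingHom.comp_apply,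
        AddMonoidAlgebra.mapDomainRingHom_apply, AddMonoidAlgebra.mapDomain_single,
        AddMonoidAlgebra.mapRingHom_single]
      simp
  rw [← hF, RingHom.comp_apply, h, map_zero]

theorem red_surjective (m : ℕ) [NeZero m] : Function.Surjective (red m) := by
  intro g
  induction g using AddMonoidAlgebra.induction_linear with
  | zero => exact ⟨0, map_zero _⟩
  | add f g hf hg =>
    obtain ⟨a, rfl⟩ := hf
    obtain ⟨b, rfl⟩ := hg
    exact ⟨a + b, map_add _ _ _⟩
  | single x r =>
    refine ⟨AddMonoidAlgebra.single (x.val : ℤ) (r.val : ℤ), ?_⟩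
    rw [red_single]
    simp

end Pool.Agent.X201.ZwrZ
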