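import Pool.Agent.X201.ZwrZ2

/-!
# Congruence box spaces of `ℤ ≀ ℤ`: quotients by congruence subgroups
-/

namespace Pool.Agent.X201.ZwrZ

open LaurentPolynomial Matrix

theorem mkG_inv (n : ℤ) (P : A) : (mkG n P)⁻¹ = mkG (-n) (-(T (-n) * P)) := by
  rw [inv_eq_iff_mul_eq_one, mkG_mul]
  have hT : (T n : A) * T (-n) = 1 := by rw [← T_add]; simp
  have : P + T n * -(T (-n) * P) = 0 := by
    rw [mul_neg, ← mul_assoc, hT, one_mul, add_neg_cancel]
  rw [this, add_neg_cancel, mkG_zero]

theorem mk_eq_mk {I : Ideal A} {n m : ℤ} {P R : A} :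
    ((mkG n P : G) : G ⧸ congruenceSubgroup I) = ((mkG m R : G) : G ⧸ congruenceSubgroup I) ↔
      (T n - T m : A) ∈ I ∧ P - R ∈ I := by
  rw [QuotientGroup.eq, mkG_inv, mkG_mul, mem_congruenceSubgroup]
  have hT : (T n : A) * T (-n) = 1 := by rw [← T_add]; simp
  constructor
  · rintro ⟨h1, h2⟩
    constructor
    · have := I.mul_mem_left (-T n) h1
      have h3 : -(T n : A) * (T (-n + m) - 1) = T n - T m := by
        rw [T_add]
        linear_combination (-T m) * hT
      rwa [h3] at this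
    · have := I.mul_mem_left (-T n) h2
      have h3 : -(T n : A) * (-(T (-n) * P) + T (-n) * R) = P - R := by
        linear_combination (P - R) * hT
      rwa [h3] at this
  · rintro ⟨h1, h2⟩
    constructor
    · have := I.mul_mem_left (-T (-n)) h1
      have h3 : -(T (-n) : A) * (T n - T m) = T (-n + m) - 1 := by
        rw [T_add]
        linear_combination (-1 : A) * hT
      rwa [h3] at this
    · have := I.mul_mem_left (-T (-n)) h2
      have h3 : -(T (-n) : A) * (P - R) = (-(T (-n) * P) + T (-n) * R) := by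
        ring
      rwa [h3] at this

theorem finite_quotient {I : Ideal A} (h : Finite (A ⧸ I)) :
    Finite (G ⧸ congruenceSubgroup I) := by
  have : Finite (GL (Fin 2) (A ⧸ I)) := by
    have : Finite (Matrix (Fin 2) (Fin 2) (A ⧸ I)) := by
      unfold Matrix; infer_instance
    exact inferInstanceAs (Finite (Matrix (Fin 2) (Fin 2) (A ⧸ I))ˣ)
  have : (congruenceSubgroup I).FiniteIndex := by
    unfold congruenceSubgroup
    infer_instance
  exact Subgroup.finite_quotient_of_finiteIndex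

theorem card_le {I : Ideal A} (h : Finite (A ⧸ I)) :
    Nat.card (A ⧸ I) ≤ Nat.card (G ⧸ congruenceSubgroup I) := by
  have := finite_quotient h
  let f : A ⧸ I → G ⧸ congruenceSubgroup I := fun x => ((mkG 0 x.out : G) : G ⧸ _)
  refine Nat.card_le_card_of_injective f ?_
  intro x y hxy
  have h1 := (mk_eq_mk.1 hxy).2
  rw [← Ideal.Quotient.eq] at h1
  have hx : Ideal.Quotient.mk I x.out = x := Quotient.out_eq x
  have hy : Ideal.Quotient.mk I y.out = y := Quotient.out_eq y
  rw [hx, hy] at h1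
  exact h1

theorem mkG_zero_natCast (c : ℕ) : mkG 0 (c : A) = (mkG 0 1) ^ c := by
  induction c with
  | zero => simp [mkG_zero]
  | succ c ih =>
    rw [pow_succ, ← ih, mkG_mul]
    simp

theorem mkG_natCast_zero (c : ℕ) : mkG (c : ℤ) 0 = (mkG 1 0) ^ c := by
  induction c with
  | zero => simp [mkG_zero]
  | succ c ih =>
    rw [pow_succ, ← ih, mkG_mul]
    simp

/-- The word length of a polynomial element. -/
theorem inBall_sum {S : Set G} {L : ℕ} (ht : InBall S L (mkG 1 0)) (ha : InBall S L (mkG 0 1))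
    (m : ℕ) (c : ℕ → ℕ) (hc : ∀ j, c j ≤ m) (M : ℕ) :
    InBall S (M * (m * L + L)) (mkG M (∑ j ∈ Finset.range M, (c j : A) * T j)) := by
  induction M with
  | zero => simpa [mkG_zero] using InBall.one S 0
  | succ M ih =>
    have h1 : mkG ((M + 1 : ℕ) : ℤ) (∑ j ∈ Finset.range (M + 1), (c j : A) * T j) =
        mkG M (∑ j ∈ Finset.range M, (c j : A) * T j) * ((mkG 0 1) ^ (c M) * mkG 1 0) := by
      rw [← mkG_zero_natCast, mkG_mul, mkG_mul, Finset.sum_range_succ]
      congr 1
      rw [T_zero, mul_zero, add_zero, T_mul]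
    rw [h1, Nat.succ_mul]
    refine ih.mul (InBall.mul ?_ ht)
    exact (ha.pow (c M)).mono (Nat.mul_le_mul_right _ (hc M))

theorem exists_L {S : Set G} (hS : Subgroup.closure S = ⊤) :
    ∃ L : ℕ, InBall S L (mkG 1 0) ∧ InBall S L (mkG 0 1) := by
  obtain ⟨m, hm⟩ := exists_inBall hS (mkG 1 0)
  obtain ⟨n, hn⟩ := exists_inBall hS (mkG 0 1)
  exact ⟨max m n, hm.mono (le_max_left _ _), hn.mono (le_max_right _ _)⟩

/-- The group `G` is generated by `(X, 0; 0, 1)` and `(1, 1; 0, 1)`, so it is finitely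
generated. -/
theorem exists_finite_generating : ∃ S : Set G, S.Finite ∧ Subgroup.closure S = ⊤ := by
  refine ⟨{mkG 1 0, mkG 0 1}, Set.toFinite _, ?_⟩
  rw [eq_top_iff]
  rintro g -
  have ht : mkG 1 0 ∈ Subgroup.closure {mkG 1 0, mkG 0 1} :=
    Subgroup.subset_closure (by simp)
  have ha : mkG 0 1 ∈ Subgroup.closure {mkG 1 0, mkG 0 1} :=
    Subgroup.subset_closure (by simp)
  have htn : ∀ n : ℤ, mkG n 0 ∈ Subgroup.closure {mkG 1 0, mkG 0 1} := by
    intro n
    rcases Int.eq_nat_or_neg n with ⟨m, rfl | rfl⟩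
    · rw [mkG_natCast_zero]
      exact Subgroup.pow_mem _ ht m
    · have h1 : mkG (-(m : ℤ)) 0 = (mkG m 0)⁻¹ := by rw [mkG_inv]; simp
      rw [h1, mkG_natCast_zero]
      exact Subgroup.inv_mem _ (Subgroup.pow_mem _ ht m)
  have hac : ∀ c : ℤ, mkG 0 (c : A) ∈ Subgroup.closure {mkG 1 0, mkG 0 1} := by
    intro c
    rcases Int.eq_nat_or_neg c with ⟨m, rfl | rfl⟩
    · have h1 : (((m : ℤ) : A)) = (m : A) := by simp
      rw [h1, mkG_zero_natCast]
      exact Subgroup.pow_mem _ ha m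
    · have h1 : mkG 0 (((-(m : ℤ) : ℤ)) : A) = (mkG 0 (m : A))⁻¹ := by rw [mkG_inv]; simp
      rw [h1, mkG_zero_natCast]
      exact Subgroup.inv_mem _ (Subgroup.pow_mem _ ha m)
  have hP : ∀ P : A, mkG 0 P ∈ Subgroup.closure {mkG 1 0, mkG 0 1} := by
    intro P
    induction P using AddMonoidAlgebra.induction_linear with
    | zero => rw [mkG_zero]; exact Subgroup.one_mem _
    | add f g hf hg =>
      have h1 : mkG 0 (f + g) = mkG 0 f * mkG 0 g := by rw [mkG_mul]; simp
      rw [h1]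
      exact Subgroup.mul_mem _ hf hg
    | single n c =>
      have h1 : mkG 0 (AddMonoidAlgebra.single n c) = mkG n 0 * mkG 0 (c : A) * (mkG n 0)⁻¹ := by
        rw [single_eq_C_mul_T, mkG_inv, mkG_mul, mkG_mul]
        simp
      rw [h1]
      exact Subgroup.mul_mem _ (Subgroup.mul_mem _ (htn n) (hac c)) (Subgroup.inv_mem _ (htn n))
  obtain ⟨n, P, rfl⟩ := exists_mkG g
  have h1 : mkG n P = mkG 0 P * mkG n 0 := by rw [mkG_mul]; simp
  rw [h1]
  exact Subgroup.mul_mem _ (hP P) (htn n)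

end Pool.Agent.X201.ZwrZ
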